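import Mathlib

/-!
# The large inductive dimension: basic facts

The definitions and the basic facts are those of an earlier formalization of the product theorem
for strongly paracompact products (problem MP_bd525c_gt, Question 2).
-/

set_option autoImplicit false

namespace Pool.Agent.H87.IndP

open Set Topology

universe u

/-- `IndLT n X` says `Ind X < n`, that is `Ind X ≤ n - 1`: the space `X` has `Ind X ≤ -1` iff it
is empty, and `Ind X ≤ n` iff for every closed `A` and every open `U ⊇ A` there is an open `V`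
with `A ⊆ V ⊆ closure V ⊆ U` and `Ind (frontier V) ≤ n - 1`. -/
def IndLT : ℕ → (X : Type u) → [TopologicalSpace X] → Prop
  | 0, X, _ => IsEmpty X
  | n + 1, X, _ => ∀ A U : Set X, IsClosed A → IsOpen U → A ⊆ U →
      ∃ V : Set X, IsOpen V ∧ A ⊆ V ∧ closure V ⊆ U ∧ IndLT n (frontier V)

open Classical in
/-- The large inductive dimension, with values in `{-1, 0, 1, 2, …, ∞}`: if `k` is the least
natural number with `Ind X < k`, then `Ind X = k - 1`; if there is no such `k`, then
`Ind X = ∞`. -/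
noncomputable def Ind (X : Type u) [TopologicalSpace X] : WithTop ℤ :=
  if h : ∃ k : ℕ, IndLT k X then ((((Nat.find h : ℕ) : ℤ) - 1 : ℤ) : WithTop ℤ) else ⊤

/-- `X` satisfies the finite sum theorem for `Ind`: for every nonempty finite family
`F 0, …, F n` of closed subsets of `X`, `Ind (⋃ i, F i) ≤ max_i Ind (F i)`. -/
def FiniteSumTheorem (X : Type u) [TopologicalSpace X] : Prop :=
  ∀ (n : ℕ) (F : Fin (n + 1) → Set X), (∀ i, IsClosed (F i)) →
    Ind (⋃ i, F i : Set X) ≤ Finset.univ.sup' Finset.univ_nonempty (fun i => Ind (F i))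

/-! ### Basic facts on `Ind` -/

theorem IndLT.of_isClosedEmbedding (n : ℕ) : ∀ {X Y : Type u} [TopologicalSpace X]
    [TopologicalSpace Y] {f : X → Y}, IsClosedEmbedding f → IndLT n Y → IndLT n X := by
  induction n with
  | zero =>
    intro X Y _ _ f _ hY
    exact ⟨fun x => hY.false (f x)⟩
  | succ n ih =>
    intro X Y _ _ f hf hY A U hA hU hAU
    obtain ⟨U', hU', rfl⟩ := hf.isInducing.isOpen_iff.1 hU
    obtain ⟨V, hV, hAV, hVU, hfr⟩ := hY (f '' A) U' (hf.isClosedMap A hA) hU'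
      (image_subset_iff.2 hAU)
    refine ⟨f ⁻¹' V, hV.preimage hf.continuous, image_subset_iff.1 hAV, ?_, ?_⟩
    · exact (hf.continuous.closure_preimage_subset V).trans (preimage_mono hVU)
    · have h1 : frontier (f ⁻¹' V) ⊆ f ⁻¹' (frontier V) := by
        rw [(hV.preimage hf.continuous).frontier_eq, hV.frontier_eq]
        intro x hx
        exact ⟨hf.continuous.closure_preimage_subset V hx.1, hx.2⟩
      have h2 : IsClosedEmbedding (fun x : frontier (f ⁻¹' V) => (⟨f x, h1 x.2⟩ : frontier V)) := by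
        have h3 : IsClosedEmbedding (fun x : frontier (f ⁻¹' V) => f x) :=
          hf.comp isClosed_frontier.isClosedEmbedding_subtypeVal
        exact IsClosedEmbedding.of_comp (g := Subtype.val) IsEmbedding.subtypeVal h3
      exact ih h2 hfr

theorem IndLT.mono_set {n : ℕ} {X : Type u} [TopologicalSpace X] {S T : Set X} (hS : IsClosed S)
    (hST : S ⊆ T) (h : IndLT n T) : IndLT n S := by
  refine IndLT.of_isClosedEmbedding n (f := Set.inclusion hST) ?_ h
  refine ⟨Topology.IsEmbedding.inclusion hST, ?_⟩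
  rw [range_inclusion]
  exact hS.preimage continuous_subtype_val

theorem IndLT.succ {n : ℕ} : ∀ {X : Type u} [TopologicalSpace X], IndLT n X → IndLT (n + 1) X := by
  induction n with
  | zero =>
    intro X _ h A U _ _ _
    refine ⟨∅, isOpen_empty, fun x _ => (h.false x).elim, fun x _ => (h.false x).elim, ?_⟩
    exact ⟨fun x => h.false x.1⟩
  | succ n ih =>
    intro X _ h A U hA hU hAU
    obtain ⟨V, h1, h2, h3, h4⟩ := h A U hA hU hAU
    exact ⟨V, h1, h2, h3, ih h4⟩

theorem IndLT.mono {n m : ℕ} (h : n ≤ m) {X : Type u} [TopologicalSpace X] (hX : IndLT n X) :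
    IndLT m X := by
  induction h with
  | refl => exact hX
  | step _ ih => exact ih.succ

/-- `Ind X ≤ n - 1` in the sense of the relation `IndLT` and of the value `Ind`. -/
theorem ind_lt_iff (n : ℕ) (X : Type u) [TopologicalSpace X] :
    Ind X < ((n : ℤ) : WithTop ℤ) ↔ IndLT n X := by
  classical
  unfold Ind
  by_cases h : ∃ k : ℕ, IndLT k X
  · rw [dif_pos h, WithTop.coe_lt_coe]
    constructor
    · intro hlt
      exact IndLT.mono (by omega) (Nat.find_spec h)
    · intro hn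
      have := Nat.find_min' h hn
      omega
  · rw [dif_neg h]
    constructor
    · intro hlt
      exact absurd hlt not_top_lt
    · intro hn
      exact absurd ⟨n, hn⟩ h

theorem IndLT.empty (n : ℕ) {X : Type u} [TopologicalSpace X] : IndLT n (∅ : Set X) :=
  IndLT.mono (Nat.zero_le n) (show IndLT 0 (∅ : Set X) from ⟨fun x => x.2⟩)

theorem FiniteSumTheorem.union {X : Type u} [TopologicalSpace X] (hX : FiniteSumTheorem X)
    {n : ℕ} {S T : Set X} (hS : IsClosed S) (hT : IsClosed T) (h1 : IndLT n S) (h2 : IndLT n T) :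
    IndLT n (S ∪ T : Set X) := by
  have h := hX 1 ![S, T] (by
    intro i
    fin_cases i
    · exact hS
    · exact hT)
  have hU : (⋃ i : Fin 2, (![S, T] : Fin 2 → Set X) i) = S ∪ T := by
    ext x
    simp [Fin.exists_fin_two]
  rw [← ind_lt_iff] at h1 h2 ⊢
  rw [hU] at h
  refine lt_of_le_of_lt h ?_
  rw [Finset.sup'_lt_iff]
  intro i _
  fin_cases i
  · exact h1
  · exact h2


theorem IndLT.of_subset_image {n : ℕ} {X : Type u} [TopologicalSpace X] {F : Set X} {T : Set F}
    {D : Set X} (hD : IsClosed D) (h : D ⊆ Subtype.val '' T) (hT : IndLT n T) : IndLT n D := by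
  have h1 : ∀ x ∈ D, ∃ hx : x ∈ F, (⟨x, hx⟩ : F) ∈ T := by
    intro x hx
    obtain ⟨t, ht, rfl⟩ := h hx
    exact ⟨t.2, ht⟩
  refine IndLT.of_isClosedEmbedding n
    (f := fun x : D => (⟨⟨x.1, (h1 x.1 x.2).1⟩, (h1 x.1 x.2).2⟩ : T)) ?_ hT
  exact IsClosedEmbedding.of_comp (g := fun t : T => ((t : F) : X))
    (IsEmbedding.subtypeVal.comp IsEmbedding.subtypeVal) hD.isClosedEmbedding_subtypeVal

theorem IndLT.of_image_subset {n : ℕ} {X : Type u} [TopologicalSpace X] {F : Set X}
    (hF : IsClosed F) {T : Set F} {D : Set X} (hT : IsClosed T) (h : Subtype.val '' T ⊆ D)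
    (hD : IndLT n D) : IndLT n T := by
  refine IndLT.of_isClosedEmbedding n
    (f := fun x : T => (⟨x.1.1, h ⟨x.1, x.2, rfl⟩⟩ : D)) ?_ hD
  exact IsClosedEmbedding.of_comp (g := fun t : D => (t : X)) IsEmbedding.subtypeVal
    (hF.isClosedEmbedding_subtypeVal.comp hT.isClosedEmbedding_subtypeVal)

/-- The definition of `IndLT (n + 1)` for a closed subspace, in terms of the ambient space. -/
theorem exists_relOpen {n : ℕ} {X : Type u} [TopologicalSpace X] {F : Set X} (hF : IsClosed F)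
    (h : IndLT (n + 1) F) {C U : Set X} (hC : IsClosed C) (hU : IsOpen U) (hCU : C ⊆ U) :
    ∃ G G' : Set X, IsOpen G' ∧ G = F ∩ G' ∧ F ∩ C ⊆ G ∧ closure G ⊆ U ∧
      IsClosed (closure G \ G) ∧ IndLT n (closure G \ G : Set X) := by
  obtain ⟨V, hV, hAV, hVU, hfr⟩ := h (Subtype.val ⁻¹' C) (Subtype.val ⁻¹' U)
    (hC.preimage continuous_subtype_val) (hU.preimage continuous_subtype_val) (preimage_mono hCU)
  obtain ⟨G', hG', rfl⟩ := isOpen_induced_iff.1 hV
  have hcl : closure (F ∩ G') = Subtype.val '' closure (Subtype.val ⁻¹' G' : Set F) := by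
    rw [← hF.isClosedEmbedding_subtypeVal.closure_image_eq, Subtype.image_preimage_coe]
  have hclF : closure (F ∩ G') ⊆ F := closure_minimal inter_subset_left hF
  have hD : closure (F ∩ G') \ (F ∩ G') = closure (F ∩ G') ∩ G'ᶜ := by
    ext x
    constructor
    · rintro ⟨h1, h2⟩
      exact ⟨h1, fun h3 => h2 ⟨hclF h1, h3⟩⟩
    · rintro ⟨h1, h2⟩
      exact ⟨h1, fun h3 => h2 h3.2⟩
  have hDc : IsClosed (closure (F ∩ G') \ (F ∩ G')) := by
    rw [hD]
    exact isClosed_closure.inter hG'.isClosed_compl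
  refine ⟨F ∩ G', G', hG', rfl, ?_, ?_, hDc, ?_⟩
  · rintro x ⟨hx, hxC⟩
    exact ⟨hx, @hAV ⟨x, hx⟩ hxC⟩
  · rw [hcl]
    rintro _ ⟨x, hx, rfl⟩
    exact hVU hx
  · refine IndLT.of_subset_image hDc ?_ hfr
    rintro x ⟨h1, h2⟩
    rw [hcl] at h1
    obtain ⟨t, ht, rfl⟩ := h1
    refine ⟨t, ?_, rfl⟩
    rw [hV.frontier_eq]
    exact ⟨ht, fun h3 => h2 ⟨t.2, h3⟩⟩

/-! ### Sets covered by finitely many rectangles of small total dimension -/

section Product

variable {X Y : Type u} [TopologicalSpace X] [TopologicalSpace Y]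

/-- `Cov n T`: the set `T` is contained in a finite union of closed rectangles `F a ×ˢ H a`,
`a < n`, with `Ind (F a) ≤ a` and `Ind (H a) ≤ n - 1 - a`. -/
def Cov (n : ℕ) (T : Set (X × Y)) : Prop :=
  ∃ (F : ℕ → Set X) (H : ℕ → Set Y), (∀ a, IsClosed (F a)) ∧ (∀ a, IsClosed (H a)) ∧
    (∀ a b, a + b + 1 = n → IndLT (a + 1) (F a) ∧ IndLT (b + 1) (H a)) ∧
    ∀ z ∈ T, ∃ a, a < n ∧ z.1 ∈ F a ∧ z.2 ∈ H a

theorem Cov.mono {n : ℕ} {S T : Set (X × Y)} (hST : S ⊆ T) (h : Cov n T) : Cov n S := by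
  obtain ⟨F, H, h1, h2, h3, h4⟩ := h
  exact ⟨F, H, h1, h2, h3, fun z hz => h4 z (hST hz)⟩

theorem Cov.empty (n : ℕ) : Cov n (∅ : Set (X × Y)) :=
  ⟨fun _ => ∅, fun _ => ∅, fun _ => isClosed_empty, fun _ => isClosed_empty,
    fun _ _ _ => ⟨IndLT.empty _, IndLT.empty _⟩, fun _ hz => hz.elim⟩

theorem Cov.rect {n a b : ℕ} (hab : a + b + 1 ≤ n) {F : Set X} {H : Set Y} (hF : IsClosed F)
    (hH : IsClosed H) (hF' : IndLT (a + 1) F) (hH' : IndLT (b + 1) H) : Cov n (F ×ˢ H) := by
  classical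
  refine ⟨fun i => if i = a then F else ∅, fun i => if i = a then H else ∅, ?_, ?_, ?_, ?_⟩
  · intro i
    dsimp only
    split_ifs
    · exact hF
    · exact isClosed_empty
  · intro i
    dsimp only
    split_ifs
    · exact hH
    · exact isClosed_empty
  · intro i j hij
    beta_reduce
    by_cases h : i = a
    · subst h
      rw [if_pos rfl, if_pos rfl]
      exact ⟨hF', hH'.mono (by omega)⟩
    · rw [if_neg h, if_neg h]
      exact ⟨IndLT.empty _, IndLT.empty _⟩
  · rintro z ⟨hz1, hz2⟩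
    refine ⟨a, by omega, ?_, ?_⟩
    · simpa using hz1
    · simpa using hz2

theorem Cov.union (hX : FiniteSumTheorem X) (hY : FiniteSumTheorem Y) {n : ℕ}
    {S T : Set (X × Y)} (hS : Cov n S) (hT : Cov n T) : Cov n (S ∪ T) := by
  obtain ⟨F, H, h1, h2, h3, h4⟩ := hS
  obtain ⟨F', H', h1', h2', h3', h4'⟩ := hT
  refine ⟨fun a => F a ∪ F' a, fun a => H a ∪ H' a, fun a => (h1 a).union (h1' a),
    fun a => (h2 a).union (h2' a), ?_, ?_⟩
  · intro a b hab
    exact ⟨hX.union (h1 a) (h1' a) (h3 a b hab).1 (h3' a b hab).1,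
      hY.union (h2 a) (h2' a) (h3 a b hab).2 (h3' a b hab).2⟩
  · rintro z (hz | hz)
    · obtain ⟨a, ha, hz1, hz2⟩ := h4 z hz
      exact ⟨a, ha, Or.inl hz1, Or.inl hz2⟩
    · obtain ⟨a, ha, hz1, hz2⟩ := h4' z hz
      exact ⟨a, ha, Or.inr hz1, Or.inr hz2⟩

theorem Cov.biUnion (hX : FiniteSumTheorem X) (hY : FiniteSumTheorem Y) {n : ℕ} {ι : Type*}
    (s : Finset ι) (T : ι → Set (X × Y)) (h : ∀ i ∈ s, Cov n (T i)) :
    Cov n (⋃ i ∈ s, T i) := by
  classical
  induction s using Finset.induction_on with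
  | empty => simpa using Cov.empty n
  | insert i s his ih =>
    rw [Finset.set_biUnion_insert]
    exact Cov.union hX hY (h i (Finset.mem_insert_self i s))
      (ih fun j hj => h j (Finset.mem_insert_of_mem hj))

/-- The difference of a rectangle of relatively open sets: the pieces of a closed rectangle
outside an open subrectangle form a closed set. -/
theorem isClosed_diff_rect {F G' : Set X} {H K' : Set Y} (hF : IsClosed F) (hG' : IsOpen G')
    (hH : IsClosed H) (hK' : IsOpen K') :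
    IsClosed {z : X × Y | z.1 ∈ F ∧ z.2 ∈ H ∧ ¬ (z.1 ∈ F ∩ G' ∧ z.2 ∈ H ∩ K')} := by
  have : {z : X × Y | z.1 ∈ F ∧ z.2 ∈ H ∧ ¬ (z.1 ∈ F ∩ G' ∧ z.2 ∈ H ∩ K')} =
      (F ∩ G'ᶜ) ×ˢ H ∪ F ×ˢ (H ∩ K'ᶜ) := by
    ext z
    simp only [mem_ofPred_eq, mem_inter_iff, mem_union, mem_prod, mem_compl_iff]
    tauto
  rw [this]
  exact ((hF.inter hG'.isClosed_compl).prod hH).union (hF.prod (hH.inter hK'.isClosed_compl))

end Product

theorem ind_le_iff (n : ℕ) (X : Type u) [TopologicalSpace X] :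
    Ind X ≤ (((n : ℤ) - 1 : ℤ) : WithTop ℤ) ↔ IndLT n X := by
  classical
  unfold Ind
  by_cases h : ∃ k : ℕ, IndLT k X
  · rw [dif_pos h, WithTop.coe_le_coe]
    constructor
    · intro hle
      exact IndLT.mono (by omega) (Nat.find_spec h)
    · intro hn
      have := Nat.find_min' h hn
      omega
  · rw [dif_neg h]
    constructor
    · intro hle
      exact absurd (top_le_iff.1 hle) (WithTop.coe_ne_top)
    · intro hn
      exact absurd ⟨n, hn⟩ h

theorem ind_of_isEmpty (X : Type u) [TopologicalSpace X] [h : IsEmpty X] :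
    Ind X = ((-1 : ℤ) : WithTop ℤ) := by
  classical
  have h0 : IndLT 0 X := h
  have hex : ∃ k : ℕ, IndLT k X := ⟨0, h0⟩
  unfold Ind
  rw [dif_pos hex]
  have h1 : Nat.find hex = 0 := Nat.le_zero.1 (Nat.find_min' hex h0)
  rw [h1]
  norm_num

theorem ind_nonneg (X : Type u) [TopologicalSpace X] [h : Nonempty X] :
    ((0 : ℤ) : WithTop ℤ) ≤ Ind X := by
  rw [← not_lt]
  intro h1
  have h2 : IndLT 0 X := (ind_lt_iff 0 X).1 (by simpa using h1)
  exact h2.false h.some

end Pool.Agent.H87.IndP
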