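import Pool.Agent.H87.IndP.Basic

/-!
# Pieces with small boundary near a set covered by finitely many rectangles
-/

set_option autoImplicit false

namespace Pool.Agent.H87.IndP

open Set Topology

universe u

variable {X Y : Type u} [TopologicalSpace X] [TopologicalSpace Y]

/-- A piece `E` inside the rectangle `U × V`, which contains the points of `S ∩ O` in the smaller
rectangle `C × D`, and whose boundary relative to `S` is small inside the open set `O`, if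
`S ∩ O` is covered by finitely many rectangles of small dimension. -/
theorem exists_piece (hX : FiniteSumTheorem X) (hY : FiniteSumTheorem Y) {m : ℕ}
    {S O : Set (X × Y)} (hS : IsClosed S) (hO : IsOpen O) (hcov : Cov (m + 1) (S ∩ O))
    {C U : Set X} {D V : Set Y} (hCc : IsClosed C) (hU : IsOpen U) (hCU : C ⊆ U)
    (hDc : IsClosed D) (hV : IsOpen V) (hDV : D ⊆ V) :
    ∃ E : Set (X × Y), IsOpen E ∧ E ⊆ U ×ˢ V ∧ S ∩ O ∩ C ×ˢ D ⊆ E ∧
      Cov m ((closure (S ∩ E) \ (S ∩ E)) ∩ O) := by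
  classical
  obtain ⟨F, H, hF, hH, hFH, hc⟩ := hcov
  -- relatively open sets in the rectangles
  have key : ∀ a : ℕ, ∃ (G' : Set X) (K' : Set Y), IsOpen G' ∧ IsOpen K' ∧
      (∀ b, a + b + 1 = m + 1 → F a ∩ C ⊆ F a ∩ G' ∧ H a ∩ D ⊆ H a ∩ K' ∧
        closure (F a ∩ G') ⊆ U ∧ closure (H a ∩ K') ⊆ V ∧
        IsClosed (closure (F a ∩ G') \ (F a ∩ G')) ∧
        IsClosed (closure (H a ∩ K') \ (H a ∩ K')) ∧
        IndLT a (closure (F a ∩ G') \ (F a ∩ G') : Set X) ∧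
        IndLT b (closure (H a ∩ K') \ (H a ∩ K') : Set Y)) := by
    intro a
    by_cases h : ∃ b, a + b + 1 = m + 1
    · obtain ⟨b, hb⟩ := h
      obtain ⟨G, G', hG', rfl, h1, h2, h3, h4⟩ := exists_relOpen (hF a) (hFH a b hb).1 hCc hU hCU
      obtain ⟨K, K', hK', rfl, k1, k2, k3, k4⟩ := exists_relOpen (hH a) (hFH a b hb).2 hDc hV hDV
      refine ⟨G', K', hG', hK', fun b' hb' => ?_⟩
      have : b' = b := by omega
      subst this
      exact ⟨h1, k1, h2, k2, h3, k3, h4, k4⟩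
    · exact ⟨univ, univ, isOpen_univ, isOpen_univ, fun b hb => (h ⟨b, hb⟩).elim⟩
  choose G' K' hG' hK' hGK using key
  -- the bad part
  let R : Finset ℕ := Finset.range (m + 1)
  let Bad : Set (X × Y) := ⋃ a ∈ R, {z : X × Y | z.1 ∈ F a ∧ z.2 ∈ H a ∧
    ¬ (z.1 ∈ F a ∩ G' a ∧ z.2 ∈ H a ∩ K' a)}
  have hBad : IsClosed Bad := isClosed_biUnion_finset fun a _ =>
    isClosed_diff_rect (hF a) (hG' a) (hH a) (hK' a)
  have hb : ∀ a ∈ R, ∃ b, a + b + 1 = m + 1 := by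
    intro a ha
    have := Finset.mem_range.1 ha
    exact ⟨m - a, by omega⟩
  have hUVo : IsOpen (U ×ˢ V) := hU.prod hV
  have hE1 : S ∩ (U ×ˢ V ∩ Badᶜ) ∩ O ⊆ ⋃ a ∈ R, (F a ∩ G' a) ×ˢ (H a ∩ K' a) := by
    rintro s ⟨⟨hsS, hsUV, hsB⟩, hsO⟩
    obtain ⟨a, ha, h1, h2⟩ := hc s ⟨hsS, hsO⟩
    have haR : a ∈ R := Finset.mem_range.2 ha
    refine mem_iUnion₂.2 ⟨a, haR, ?_⟩
    by_contra hcon
    exact hsB (mem_iUnion₂.2 ⟨a, haR, h1, h2, fun h => hcon ⟨h.1, h.2⟩⟩)
  have hE2 : closure (S ∩ (U ×ˢ V ∩ Badᶜ)) ∩ O ⊆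
      ⋃ a ∈ R, closure (F a ∩ G' a) ×ˢ closure (H a ∩ K' a) := by
    have h1 : closure (S ∩ (U ×ˢ V ∩ Badᶜ)) ∩ O ⊆ closure (S ∩ (U ×ˢ V ∩ Badᶜ) ∩ O) :=
      hO.closure_inter
    refine h1.trans (closure_minimal (hE1.trans ?_) ?_)
    · exact iUnion₂_mono fun a _ => prod_mono subset_closure subset_closure
    · exact isClosed_biUnion_finset fun a _ => isClosed_closure.prod isClosed_closure
  refine ⟨U ×ˢ V ∩ Badᶜ, hUVo.inter hBad.isOpen_compl, inter_subset_left, ?_, ?_⟩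
  · rintro s ⟨-, hs1, hs2⟩
    refine ⟨⟨hCU hs1, hDV hs2⟩, fun hsB => ?_⟩
    obtain ⟨a, ha, h1, h2, h3⟩ := mem_iUnion₂.1 hsB
    obtain ⟨b, hb⟩ := hb a ha
    obtain ⟨h4, h5, -⟩ := hGK a b hb
    exact h3 ⟨h4 ⟨h1, hs1⟩, h5 ⟨h2, hs2⟩⟩
  · -- the boundary
    have hsub : (closure (S ∩ (U ×ˢ V ∩ Badᶜ)) \ (S ∩ (U ×ˢ V ∩ Badᶜ))) ∩ O ⊆
        (⋃ a ∈ R, ((closure (F a ∩ G' a) \ (F a ∩ G' a)) ×ˢ closure (H a ∩ K' a) ∪
          closure (F a ∩ G' a) ×ˢ (closure (H a ∩ K' a) \ (H a ∩ K' a)))) ∪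
        ⋃ p ∈ (R ×ˢ R).filter (fun p => p.1 ≠ p.2),
          (F p.1 ∩ F p.2) ×ˢ (H p.1 ∩ H p.2) := by
      rintro s ⟨⟨hs, hs'⟩, hsO⟩
      have hsS : s ∈ S := closure_minimal inter_subset_left hS hs
      obtain ⟨a', ha', h1', h2'⟩ := mem_iUnion₂.1 (hE2 ⟨hs, hsO⟩)
      have hsUV : s ∈ U ×ˢ V := by
        obtain ⟨b, hb⟩ := hb a' ha'
        obtain ⟨-, -, h3, h4, -⟩ := hGK a' b hb
        exact ⟨h3 h1', h4 h2'⟩
      have hsB : s ∈ Bad := by
        by_contra hcon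
        exact hs' ⟨hsS, hsUV, hcon⟩
      obtain ⟨a, ha, h1, h2, h3⟩ := mem_iUnion₂.1 hsB
      by_cases haa : a = a'
      · subst haa
        left
        refine mem_iUnion₂.2 ⟨a, ha, ?_⟩
        by_cases h4 : s.1 ∈ F a ∩ G' a
        · exact Or.inr ⟨h1', h2', fun h5 => h3 ⟨h4, h5⟩⟩
        · exact Or.inl ⟨⟨h1', h4⟩, h2'⟩
      · right
        refine mem_iUnion₂.2 ⟨(a, a'), ?_, ⟨h1, ?_⟩, h2, ?_⟩
        · rw [Finset.mem_filter, Finset.mem_product]
          exact ⟨⟨ha, ha'⟩, haa⟩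
        · exact closure_minimal inter_subset_left (hF a') h1'
        · exact closure_minimal inter_subset_left (hH a') h2'
    refine Cov.mono hsub (Cov.union hX hY (Cov.biUnion hX hY _ _ fun a ha => ?_)
      (Cov.biUnion hX hY _ _ fun p hp => ?_))
    · obtain ⟨b, hb⟩ := hb a ha
      obtain ⟨-, -, -, -, h5, h6, h7, h8⟩ := hGK a b hb
      have hF' : IndLT (a + 1) (closure (F a ∩ G' a) : Set X) :=
        IndLT.mono_set isClosed_closure (closure_minimal inter_subset_left (hF a)) (hFH a b hb).1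
      have hH' : IndLT (b + 1) (closure (H a ∩ K' a) : Set Y) :=
        IndLT.mono_set isClosed_closure (closure_minimal inter_subset_left (hH a)) (hFH a b hb).2
      refine Cov.union hX hY ?_ ?_
      · rcases a with _ | a
        · have : (closure (F 0 ∩ G' 0) \ (F 0 ∩ G' 0) : Set X) = ∅ :=
            isEmpty_coe_sort.1 (show IsEmpty _ from h7)
          rw [this, empty_prod]
          exact Cov.empty m
        · exact Cov.rect (a := a) (b := b) (by omega) h5 isClosed_closure h7 hH'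
      · rcases b with _ | b
        · have : (closure (H a ∩ K' a) \ (H a ∩ K' a) : Set Y) = ∅ :=
            isEmpty_coe_sort.1 (show IsEmpty _ from h8)
          rw [this, prod_empty]
          exact Cov.empty m
        · exact Cov.rect (a := a) (b := b) (by omega) isClosed_closure h6 hF' h8
    · rw [Finset.mem_filter, Finset.mem_product] at hp
      obtain ⟨⟨hp1, hp2⟩, hne⟩ := hp
      obtain ⟨b1, hb1⟩ := hb p.1 hp1
      obtain ⟨b2, hb2⟩ := hb p.2 hp2
      have hFc := (hF p.1).inter (hF p.2)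
      have hHc := (hH p.1).inter (hH p.2)
      rcases lt_or_gt_of_ne hne with hlt | hlt
      · exact Cov.rect (a := p.1) (b := b2) (by omega) hFc hHc
          (IndLT.mono_set hFc inter_subset_left (hFH _ _ hb1).1)
          (IndLT.mono_set hHc inter_subset_right (hFH _ _ hb2).2)
      · exact Cov.rect (a := p.2) (b := b1) (by omega) hFc hHc
          (IndLT.mono_set hFc inter_subset_right (hFH _ _ hb2).1)
          (IndLT.mono_set hHc inter_subset_left (hFH _ _ hb1).2)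

end Pool.Agent.H87.IndP
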