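import Pool.Agent.H87.IndP.Nice
import Pool.Agent.H87.IndP.Piece

/-!
# Extending a partition along a closed locally compact set of the paracompact factor
-/

set_option autoImplicit false

namespace Pool.Agent.H87.IndP

open Set Topology TopologicalSpace Filter

universe u

variable {X Y : Type u} [TopologicalSpace X] [TopologicalSpace Y]

/-- The closure of the trace of a locally finite union. -/
theorem closure_trace {Z ι : Type*} [TopologicalSpace Z] {S : Set Z} {E : ι → Set Z} (I : ι → Prop)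
    (hlf : LocallyFinite E) :
    closure (S ∩ {z | ∃ β, I β ∧ z ∈ E β}) ⊆ {z | ∃ β, I β ∧ z ∈ closure (S ∩ E β)} := by
  have h1 : {z | ∃ β, I β ∧ z ∈ closure (S ∩ E β)} = ⋃ β : {β // I β}, closure (S ∩ E β.1) := by
    ext z
    simp
  have h2 : LocallyFinite fun β : {β // I β} => closure (S ∩ E β.1) :=
    ((hlf.subset fun β => (inter_subset_right : S ∩ E β ⊆ E β)).closure).comp_injective
      Subtype.val_injective
  refine closure_minimal ?_ ?_
  · rintro z ⟨hzS, β, hβ, hz⟩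
    exact ⟨β, hβ, subset_closure ⟨hzS, hz⟩⟩
  · rw [h1]
    exact h2.isClosed_iUnion fun β => isClosed_closure

/-- **The extension lemma.** -/
theorem extend [T2Space X] [ParacompactSpace X] [NormalSpace (X × Y)]
    (hX : FiniteSumTheorem X) (hY : FiniteSumTheorem Y) {m : ℕ} {S A B : Set (X × Y)}
    (hS : IsClosed S) (hA : IsClosed A) (hB : IsClosed B) (hAS : A ⊆ S) (hBS : B ⊆ S)
    (hAB : Disjoint A B) (hSn : Nice (m + 1) S univ) {X₀ : Set X} (hX₀ : IsClosed X₀)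
    [WeaklyLocallyCompactSpace X₀] {P Q D T : Set (X × Y)} (hP : IsOpen P) (hQ : IsOpen Q)
    (hPQ : S ∩ P ∩ Q = ∅) (hD : IsClosed D) (hDT : D ⊆ interior T) (hAT : A ∩ T ⊆ P)
    (hBT : B ∩ T ⊆ Q) (hL : Nice m (S \ (P ∪ Q)) T) :
    ∃ P' Q' D' T' : Set (X × Y), IsOpen P' ∧ IsOpen Q' ∧ S ∩ P' ∩ Q' = ∅ ∧ IsClosed D' ∧
      D' ⊆ interior T' ∧ A ∩ T' ⊆ P' ∧ B ∩ T' ⊆ Q' ∧ Nice m (S \ (P' ∪ Q')) T' ∧
      D ⊆ interior D' ∧ X₀ ×ˢ univ ⊆ interior D' ∧ P' ∩ D = P ∩ D ∧ Q' ∩ D = Q ∩ D := by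
  classical
  -- the functions `f` and `g`
  obtain ⟨f, hf0, hf1, -⟩ := exists_continuous_zero_one_of_isClosed hA hB hAB
  obtain ⟨g, hg0, hg1, -⟩ := exists_continuous_zero_one_of_isClosed
    (isOpen_interior (s := T)).isClosed_compl hD (disjoint_left.2 fun z h1 h2 => h1 (hDT h2))
  obtain ⟨MS, tMS, hMS, ΦS, hΦS, hSc⟩ := hSn
  obtain ⟨ML, tML, hML, ΦL, hΦL, hLc⟩ := hL
  let _ : MetricSpace MS := metrizableSpaceMetric MS
  let Φ : X × Y → MS × ℝ × ℝ := fun z => (ΦS z, f z, g z)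
  have hΦ : Continuous Φ := hΦS.prodMk (f.continuous.prodMk g.continuous)
  let G : MS × ℝ × ℝ → ℝ → Prop := fun c ε => ε ≤ 1 / 8 ∧ Cov (m + 1) (S ∩ Φ ⁻¹' Metric.ball c ε)
  have hG : ∀ z : X × Y, ∃ ε > 0, G (Φ z) ε := by
    intro z
    obtain ⟨W, hW, hc⟩ := hSc z (mem_univ z)
    obtain ⟨N, hN, hNW⟩ := hW
    obtain ⟨ε, hε, hεN⟩ := Metric.mem_nhds_iff.1 hN
    refine ⟨min ε (1 / 8), lt_min hε (by norm_num), min_le_right _ _, Cov.mono ?_ hc⟩
    rintro z' ⟨hz'S, hz'⟩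
    refine ⟨hz'S, hNW (hεN ?_)⟩
    have h1 : dist (Φ z') (Φ z) < min ε (1 / 8) := hz'
    have h2 : dist (ΦS z') (ΦS z) ≤ dist (Φ z') (Φ z) := le_max_left _ _
    exact (h2.trans_lt h1).trans_le (min_le_left _ _)
  obtain ⟨ι, C, U, U', Dy, V, V', c, ε, hU, hV, hlf, hcov, hε, hdist⟩ :=
    exists_rects hX₀ hΦ G hG
  -- the pieces
  have hOo : ∀ β, IsOpen (Φ ⁻¹' Metric.ball (c β) (ε β)) := fun β =>
    Metric.isOpen_ball.preimage hΦ
  choose E hEo hEUV hCE hEb using fun β => exists_piece hX hY hS (hOo β) (hε β).2.2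
    (hU β).1 (hU β).2.1 (hU β).2.2.2.1 (hV β).1 (hV β).2.1 (hV β).2.2.2.1
  have hZ : ∀ z : X × Y, z.1 ∈ X₀ → ∀ β, z.1 ∈ closure (U' β) → z.2 ∈ closure (V' β) →
      |f z - (c β).2.1| < 1 / 16 ∧ |g z - (c β).2.2| < 1 / 16 ∧
      z ∈ Φ ⁻¹' Metric.ball (c β) (ε β) := by
    intro z hz β h1 h2
    have h3 := hdist β z hz h1 h2
    have h4 : ε β ≤ 1 / 8 := (hε β).2.1
    have h5 : dist (f z, g z) (c β).2 ≤ dist (Φ z) (c β) := le_max_right _ _
    have h6 : |f z - (c β).2.1| ≤ dist (f z, g z) (c β).2 := by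
      rw [← Real.dist_eq]
      exact le_max_left _ _
    have h7 : |g z - (c β).2.2| ≤ dist (f z, g z) (c β).2 := by
      rw [← Real.dist_eq]
      exact le_max_right _ _
    refine ⟨by linarith, by linarith, ?_⟩
    have := (hε β).1
    show dist (Φ z) (c β) < ε β
    linarith
  have hsubU : ∀ β, closure (U β) ⊆ closure (U' β) := fun β =>
    (hU β).2.2.2.2.trans subset_closure
  have hsubV : ∀ β, closure (V β) ⊆ closure (V' β) := fun β =>
    (hV β).2.2.2.2.trans subset_closure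
  have hlfcl : LocallyFinite fun β => closure (U' β) ×ˢ closure (V' β) := by
    have := hlf.closure
    simpa only [closure_prod_eq] using this
  have hElf : LocallyFinite E := by
    refine hlf.subset fun β => (hEUV β).trans (prod_mono ?_ ?_)
    · exact subset_closure.trans (hU β).2.2.2.2
    · exact subset_closure.trans (hV β).2.2.2.2
  have hEcl : ∀ β, closure (S ∩ E β) ⊆ closure (U β) ×ˢ closure (V β) := by
    intro β
    rw [← closure_prod_eq]
    exact closure_mono (inter_subset_right.trans (hEUV β))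
  -- the functions `r`
  have hr : ∀ β, ∃ r : C(X × Y, ℝ), EqOn r 0 (U' β ×ˢ V' β)ᶜ ∧
      EqOn r 1 (closure (U β) ×ˢ closure (V β)) ∧ ∀ z, r z ∈ Icc (0 : ℝ) 1 := by
    intro β
    refine exists_continuous_zero_one_of_isClosed
      ((hU β).2.2.1.prod (hV β).2.2.1).isClosed_compl
      (isClosed_closure.prod isClosed_closure) (disjoint_left.2 fun z h1 h2 => h1 ?_)
    exact ⟨(hU β).2.2.2.2 h2.1, (hV β).2.2.2.2 h2.2⟩
  choose r hr0 hr1 hr01 using hr
  obtain ⟨Mr, tMr, hMr, Ψ, hΨ, hΨf⟩ := exists_sup_map (fun β z => r β z)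
    (fun β => (r β).continuous) (fun β z => by
      rw [abs_le]
      exact ⟨by linarith [(hr01 β z).1], (hr01 β z).2⟩)
    (hlf.subset fun β z hz => by
      by_contra hc
      exact hz (hr0 β hc))
  -- the new sets
  let IA : ι → Prop := fun β => (c β).2.2 < 1 / 2 ∧ (c β).2.1 < 1 / 2
  let IB : ι → Prop := fun β => (c β).2.2 < 1 / 2 ∧ 1 / 2 ≤ (c β).2.1
  let NN : (ι → Prop) → Set (X × Y) := fun I => {z | ∃ β, I β ∧ z ∈ E β} ∩ {z | g z < 3 / 4}
  have hNo : ∀ I, IsOpen (NN I) := by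
    intro I
    refine IsOpen.inter ?_ (isOpen_lt g.continuous continuous_const)
    have : {z | ∃ β, I β ∧ z ∈ E β} = ⋃ (β : ι) (_ : I β), E β := by
      ext z
      simp
    rw [this]
    exact isOpen_iUnion fun β => isOpen_iUnion fun _ => hEo β
  have hNcl : ∀ I, closure (S ∩ NN I) ⊆ {z | ∃ β, I β ∧ z ∈ closure (S ∩ E β)} ∩
      {z | g z ≤ 3 / 4} := by
    intro I
    refine subset_inter ?_ ?_
    · refine (closure_mono ?_).trans (closure_trace I hElf)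
      exact inter_subset_inter_right _ inter_subset_left
    · refine closure_minimal ?_ (isClosed_le g.continuous continuous_const)
      rintro z ⟨-, -, hz⟩
      have hz' : g z < 3 / 4 := hz
      exact hz'.le
  -- the closed sets to be avoided
  let P' : Set (X × Y) := (P \ closure (S ∩ NN IB)) ∪ NN IA
  let Q' : Set (X × Y) := (Q ∪ NN IB) \ closure (S ∩ NN IA)
  have hP'o : IsOpen P' := (hP.sdiff isClosed_closure).union (hNo IA)
  have hQ'o : IsOpen Q' := (hQ.union (hNo IB)).sdiff isClosed_closure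
  have hI : ∀ β, (c β).2.2 < 1 / 2 → IA β ∨ IB β := by
    intro β hβ
    rcases lt_or_ge (c β).2.1 (1 / 2) with h | h
    · exact Or.inl ⟨hβ, h⟩
    · exact Or.inr ⟨hβ, h⟩
  -- points over `X₀`
  have hZE : ∀ z ∈ S, z.1 ∈ X₀ → ∃ β, z ∈ E β ∧ |f z - (c β).2.1| < 1 / 16 ∧
      |g z - (c β).2.2| < 1 / 16 := by
    intro z hzS hz
    obtain ⟨β, hβ⟩ := hcov z hz
    have h1 : z.1 ∈ closure (U' β) :=
      hsubU β (subset_closure ((hU β).2.2.2.1 hβ.1))
    have h2 : z.2 ∈ closure (V' β) :=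
      hsubV β (subset_closure ((hV β).2.2.2.1 hβ.2))
    obtain ⟨h3, h4, h5⟩ := hZ z hz β h1 h2
    exact ⟨β, hCE β ⟨⟨hzS, h5⟩, hβ⟩, h3, h4⟩
  have hZcl : ∀ z : X × Y, z.1 ∈ X₀ → ∀ β, z ∈ closure (S ∩ E β) →
      |f z - (c β).2.1| < 1 / 16 ∧ |g z - (c β).2.2| < 1 / 16 := by
    intro z hz β hzE
    obtain ⟨h1, h2⟩ := hEcl β hzE
    obtain ⟨h3, h4, -⟩ := hZ z hz β (hsubU β h1) (hsubV β h2)
    exact ⟨h3, h4⟩
  let N1 : Set (X × Y) := {z | ∃ β, (c β).2.2 < 1 / 2 ∧ z ∈ closure (U' β) ×ˢ closure (V' β)}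
  have hN1c : IsClosed N1 := by
    have h1 : N1 = ⋃ β : {β // (c β).2.2 < 1 / 2}, closure (U' β.1) ×ˢ closure (V' β.1) := by
      ext z
      constructor
      · rintro ⟨β, h1, h2⟩
        exact mem_iUnion.2 ⟨⟨β, h1⟩, h2⟩
      · intro h
        obtain ⟨⟨β, h1⟩, h2⟩ := mem_iUnion.1 h
        exact ⟨β, h1, h2⟩
    rw [h1]
    exact (hlfcl.comp_injective Subtype.val_injective).isClosed_iUnion fun β =>
      isClosed_closure.prod isClosed_closure
  let C1 : Set (X × Y) := N1 ∩ {z | 5 / 8 ≤ g z ∧ g z ≤ 3 / 4}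
  let C2 : Set (X × Y) := (A \ P') ∪ (B \ Q')
  let C3 : Set (X × Y) := (S ∩ {z | g z ≤ 1 / 4}) \ (NN IA ∪ NN IB)
  let C4 : Set (X × Y) := (⋃ β, (closure (U' β) ×ˢ closure (V' β)) \
    (Φ ⁻¹' Metric.ball (c β) (ε β))) ∩ {z | g z ≤ 3 / 4}
  have hC1 : IsClosed C1 := by
    refine hN1c.inter ?_
    exact (isClosed_le continuous_const g.continuous).inter
      (isClosed_le g.continuous continuous_const)
  have hC2 : IsClosed C2 := (hA.sdiff hP'o).union (hB.sdiff hQ'o)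
  have hC3 : IsClosed C3 := (hS.inter (isClosed_le g.continuous continuous_const)).sdiff
    ((hNo IA).union (hNo IB))
  have hC4 : IsClosed C4 := by
    refine IsClosed.inter ?_ (isClosed_le g.continuous continuous_const)
    refine (hlfcl.subset fun β => sdiff_subset).isClosed_iUnion fun β => ?_
    exact (isClosed_closure.prod isClosed_closure).sdiff (hOo β)
  have hDD : ∀ z ∈ D, g z = 1 := fun z hz => hg1 hz
  have hP'D : P' ∩ D = P ∩ D := by
    ext z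
    constructor
    · rintro ⟨h | h, hz⟩
      · exact ⟨h.1, hz⟩
      · have h1 : g z < 3 / 4 := h.2
        rw [hDD z hz] at h1
        norm_num at h1
    · rintro ⟨h, hz⟩
      refine ⟨Or.inl ⟨h, fun h1 => ?_⟩, hz⟩
      have h2 : g z ≤ 3 / 4 := (hNcl _ h1).2
      rw [hDD z hz] at h2
      norm_num at h2
  have hQ'D : Q' ∩ D = Q ∩ D := by
    ext z
    constructor
    · rintro ⟨⟨h | h, -⟩, hz⟩
      · exact ⟨h, hz⟩
      · have h1 : g z < 3 / 4 := h.2
        rw [hDD z hz] at h1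
        norm_num at h1
    · rintro ⟨h, hz⟩
      refine ⟨⟨Or.inl h, fun h1 => ?_⟩, hz⟩
      have h2 : g z ≤ 3 / 4 := (hNcl _ h1).2
      rw [hDD z hz] at h2
      norm_num at h2
  have hTD : ∀ z, g z ≠ 0 → z ∈ T := by
    intro z hz
    by_contra hzT
    exact hz (hg0 fun h => hzT (interior_subset h))
  have hdisjC : Disjoint (C1 ∪ C2 ∪ C3 ∪ C4) (D ∪ X₀ ×ˢ univ) := by
    rw [disjoint_left]
    rintro z hz (hzD | hzZ)
    · have hg := hDD z hzD
      rcases hz with ((h | h) | h) | h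
      · have h1 : g z ≤ 3 / 4 := h.2.2
        rw [hg] at h1
        norm_num at h1
      · have hzT : z ∈ T := interior_subset (hDT hzD)
        rcases h with ⟨h1, h2⟩ | ⟨h1, h2⟩
        · have h3 : z ∈ P ∩ D := ⟨hAT ⟨h1, hzT⟩, hzD⟩
          rw [← hP'D] at h3
          exact h2 h3.1
        · have h3 : z ∈ Q ∩ D := ⟨hBT ⟨h1, hzT⟩, hzD⟩
          rw [← hQ'D] at h3
          exact h2 h3.1
      · have h1 : g z ≤ 1 / 4 := h.1.2
        rw [hg] at h1
        norm_num at h1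
      · have h1 : g z ≤ 3 / 4 := h.2
        rw [hg] at h1
        norm_num at h1
    · have hz1 : z.1 ∈ X₀ := hzZ.1
      rcases hz with ((h | h) | h) | h
      · obtain ⟨⟨β, hβ, h1, h2⟩, h3, -⟩ := h
        obtain ⟨-, h4, -⟩ := hZ z hz1 β h1 h2
        have h5 : 5 / 8 ≤ g z := h3
        rw [abs_lt] at h4
        linarith [h4.1, h4.2]
      · rcases h with ⟨h1, h2⟩ | ⟨h1, h2⟩
        · -- a point of `A`
          have hfz : f z = 0 := hf0 h1
          have h3 : z ∉ closure (S ∩ NN IB) := by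
            intro h3
            obtain ⟨⟨β, hβ, h4⟩, -⟩ := hNcl _ h3
            obtain ⟨h5, -⟩ := hZcl z hz1 β h4
            rw [abs_lt, hfz] at h5
            linarith [hβ.2, h5.1, h5.2]
          by_cases h4 : z ∈ P
          · exact h2 (Or.inl ⟨h4, h3⟩)
          · have h5 : g z = 0 := by
              by_contra h5
              exact h4 (hAT ⟨h1, hTD z h5⟩)
            obtain ⟨β, h6, h7, h8⟩ := hZE z (hAS h1) hz1
            rw [abs_lt, hfz] at h7
            rw [abs_lt, h5] at h8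
            refine h2 (Or.inr ⟨⟨β, ⟨?_, ?_⟩, h6⟩, ?_⟩)
            · linarith [h8.1, h8.2]
            · linarith [h7.1, h7.2]
            · show g z < 3 / 4
              rw [h5]
              norm_num
        · -- a point of `B`
          have hfz : f z = 1 := hf1 h1
          have h3 : z ∉ closure (S ∩ NN IA) := by
            intro h3
            obtain ⟨⟨β, hβ, h4⟩, -⟩ := hNcl _ h3
            obtain ⟨h5, -⟩ := hZcl z hz1 β h4
            rw [abs_lt, hfz] at h5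
            linarith [hβ.2, h5.1, h5.2]
          by_cases h4 : z ∈ Q
          · exact h2 ⟨Or.inl h4, h3⟩
          · have h5 : g z = 0 := by
              by_contra h5
              exact h4 (hBT ⟨h1, hTD z h5⟩)
            obtain ⟨β, h6, h7, h8⟩ := hZE z (hBS h1) hz1
            rw [abs_lt, hfz] at h7
            rw [abs_lt, h5] at h8
            refine h2 ⟨Or.inr ⟨⟨β, ⟨?_, ?_⟩, h6⟩, ?_⟩, h3⟩
            · linarith [h8.1, h8.2]
            · linarith [h7.1, h7.2]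
            · show g z < 3 / 4
              rw [h5]
              norm_num
      · obtain ⟨⟨hzS, h1⟩, h2⟩ := h
        have h1' : g z ≤ 1 / 4 := h1
        obtain ⟨β, h6, h7, h8⟩ := hZE z hzS hz1
        rw [abs_lt] at h8
        have h9 : (c β).2.2 < 1 / 2 := by linarith [h8.1, h8.2]
        have h10 : g z < 3 / 4 := by linarith
        rcases hI β h9 with hβ | hβ
        · exact h2 (Or.inl ⟨⟨β, hβ, h6⟩, h10⟩)
        · exact h2 (Or.inr ⟨⟨β, hβ, h6⟩, h10⟩)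
      · obtain ⟨h1, -⟩ := h
        obtain ⟨β, h2, h3⟩ := mem_iUnion.1 h1
        obtain ⟨-, -, h4⟩ := hZ z hz1 β h2.1 h2.2
        exact h3 h4
  obtain ⟨k, hk0, hk1, -⟩ := exists_continuous_zero_one_of_isClosed
    (((hC1.union hC2).union hC3).union hC4) (hD.union (hX₀.prod isClosed_univ)) hdisjC
  have hkC : ∀ z, 0 < k z → z ∉ C1 ∧ z ∉ C2 ∧ z ∉ C3 ∧ z ∉ C4 := by
    intro z hz
    have : z ∉ C1 ∪ C2 ∪ C3 ∪ C4 := by
      intro h
      have h1 : k z = 0 := hk0 h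
      rw [h1] at hz
      exact lt_irrefl _ hz
    refine ⟨fun h => this (Or.inl (Or.inl (Or.inl h))), fun h => this (Or.inl (Or.inl (Or.inr h))),
      fun h => this (Or.inl (Or.inr h)), fun h => this (Or.inr h)⟩
  refine ⟨P', Q', {z | 3 / 4 ≤ k z}, {z | 1 / 2 ≤ k z}, hP'o, hQ'o, ?_,
    isClosed_le continuous_const k.continuous, ?_, ?_, ?_, ?_, ?_, ?_, hP'D, hQ'D⟩
  · rw [eq_empty_iff_forall_notMem]
    rintro z ⟨⟨hzS, h1⟩, h2, h3⟩
    have h4 : z ∉ NN IA := fun h => h3 (subset_closure ⟨hzS, h⟩)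
    obtain ⟨h5, h6⟩ := h1.resolve_right h4
    have h7 : z ∈ Q := h2.resolve_right fun h => h6 (subset_closure ⟨hzS, h⟩)
    have h8 : z ∈ S ∩ P ∩ Q := ⟨⟨hzS, h5⟩, h7⟩
    rw [hPQ] at h8
    exact h8
  · intro z hz
    have h1 : 3 / 4 ≤ k z := hz
    refine mem_interior.2 ⟨{z | 1 / 2 < k z}, fun w (hw : 1 / 2 < k w) => hw.le,
      isOpen_lt continuous_const k.continuous, ?_⟩
    show 1 / 2 < k z
    linarith
  · rintro z ⟨hzA, hz⟩
    have h1 : 1 / 2 ≤ k z := hz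
    by_contra h
    exact (hkC z (by linarith)).2.1 (Or.inl ⟨hzA, h⟩)
  · rintro z ⟨hzB, hz⟩
    have h1 : 1 / 2 ≤ k z := hz
    by_contra h
    exact (hkC z (by linarith)).2.1 (Or.inr ⟨hzB, h⟩)
  · -- niceness
    have hbd : ∀ I : ι → Prop, (∀ β, I β → (c β).2.2 < 1 / 2) → ∀ z, 0 < k z →
        z ∈ closure (S ∩ NN I) \ (S ∩ NN I) → g z < 5 / 8 ∧
        ∃ β, I β ∧ r β z = 1 ∧ z ∈ (closure (S ∩ E β) \ (S ∩ E β)) ∩
          Φ ⁻¹' Metric.ball (c β) (ε β) := by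
      intro I hI' z hkz ⟨hz1, hz2⟩
      obtain ⟨⟨β, hβ, h1⟩, h2⟩ := hNcl _ hz1
      have h2' : g z ≤ 3 / 4 := h2
      have hzS : z ∈ S := closure_minimal inter_subset_left hS hz1
      obtain ⟨h3, h4⟩ := hEcl β h1
      have h5 : g z < 5 / 8 := by
        by_contra h5
        exact (hkC z hkz).1 ⟨⟨β, hI' β hβ, hsubU β h3, hsubV β h4⟩, not_lt.1 h5, h2'⟩
      have h6 : g z < 3 / 4 := by linarith
      refine ⟨h5, β, hβ, hr1 β ⟨h3, h4⟩, ⟨h1, fun h => hz2 ⟨hzS, ⟨β, hβ, h.2⟩, h6⟩⟩, ?_⟩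
      by_contra h7
      exact (hkC z hkz).2.2.2 ⟨mem_iUnion.2 ⟨β, ⟨hsubU β h3, hsubV β h4⟩, h7⟩, h2'⟩
    have hL' : ∀ z ∈ S \ (P' ∪ Q'), (z ∈ closure (S ∩ NN IA) \ (S ∩ NN IA)) ∨
        (z ∈ closure (S ∩ NN IB) \ (S ∩ NN IB)) ∨
        (z ∈ S \ (P ∪ Q) ∧ z ∉ NN IA ∪ NN IB) := by
      rintro z ⟨hzS, hz⟩
      have h1 : z ∉ NN IA := fun h => hz (Or.inl (Or.inr h))
      by_cases h2 : z ∈ closure (S ∩ NN IA)
      · exact Or.inl ⟨h2, fun h => h1 h.2⟩
      · right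
        have h3 : z ∉ Q ∪ NN IB := fun h => hz (Or.inr ⟨h, h2⟩)
        by_cases h4 : z ∈ closure (S ∩ NN IB)
        · exact Or.inl ⟨h4, fun h => h3 (Or.inr h.2)⟩
        · right
          refine ⟨⟨hzS, fun h => ?_⟩, fun h => ?_⟩
          · rcases h with h | h
            · exact hz (Or.inl (Or.inl ⟨h, h4⟩))
            · exact h3 (Or.inl h)
          · rcases h with h | h
            · exact h1 h
            · exact h3 (Or.inr h)
    refine ⟨ML × (ℝ × ℝ) × Mr, inferInstance, inferInstance, fun z => (ΦL z, (g z, k z), Ψ z),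
      hΦL.prodMk ((g.continuous.prodMk k.continuous).prodMk hΨ), fun z hz => ?_⟩
    have hkz : 0 < k z := by
      have h1 : 1 / 2 ≤ k z := hz
      linarith
    set 𝓕 := comap (fun z => (ΦL z, (g z, k z), Ψ z)) (𝓝 (ΦL z, (g z, k z), Ψ z)) with h𝓕
    have hFL : 𝓕 ≤ comap ΦL (𝓝 (ΦL z)) :=
      comap_le_comap (fun z => (ΦL z, (g z, k z), Ψ z)) (fun w => w.1) (by fun_prop) z
    have hFg : 𝓕 ≤ comap g (𝓝 (g z)) :=
      comap_le_comap (fun z => (ΦL z, (g z, k z), Ψ z)) (fun w => w.2.1.1) (by fun_prop) z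
    have hFk : 𝓕 ≤ comap k (𝓝 (k z)) :=
      comap_le_comap (fun z => (ΦL z, (g z, k z), Ψ z)) (fun w => w.2.1.2) (by fun_prop) z
    have hFΨ : 𝓕 ≤ comap Ψ (𝓝 (Ψ z)) :=
      comap_le_comap (fun z => (ΦL z, (g z, k z), Ψ z)) (fun w => w.2.2) (by fun_prop) z
    have hWk : {z' | 0 < k z'} ∈ 𝓕 := hFk (preimage_mem_comap (Ioi_mem_nhds hkz))
    obtain ⟨Wr, hWr, hWrf⟩ := hΨf z
    have hWr' : Wr ∈ 𝓕 := hFΨ hWr
    -- the boundary part
    let Bd : Set (X × Y) := ⋃ β ∈ hWrf.toFinset, (closure (S ∩ E β) \ (S ∩ E β)) ∩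
      Φ ⁻¹' Metric.ball (c β) (ε β)
    have hBd : Cov m Bd := Cov.biUnion hX hY _ _ fun β _ => hEb β
    have hBdmem : ∀ I : ι → Prop, (∀ β, I β → (c β).2.2 < 1 / 2) → ∀ z' ∈ Wr, 0 < k z' →
        z' ∈ closure (S ∩ NN I) \ (S ∩ NN I) → z' ∈ Bd := by
      intro I hI' z' hz'W hkz' hz'
      obtain ⟨-, β, -, h1, h2⟩ := hbd I hI' z' hkz' hz'
      exact mem_iUnion₂.2 ⟨β, hWrf.mem_toFinset.2 ⟨z', hz'W, h1⟩, h2⟩
    rcases eq_or_ne (g z) 0 with hgz | hgz
    · -- far from `D`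
      have hWg : {z' | g z' < 1 / 4} ∈ 𝓕 := hFg (preimage_mem_comap (Iio_mem_nhds (by
        rw [hgz]; norm_num)))
      refine ⟨_, inter_mem (inter_mem hWk hWr') hWg, Cov.mono ?_ hBd⟩
      rintro z' ⟨hz'L, ⟨hkz', hz'W⟩, hgz'⟩
      have hgz'' : g z' < 1 / 4 := hgz'
      rcases hL' z' hz'L with h | h | h
      · exact hBdmem IA (fun β hβ => hβ.1) z' hz'W hkz' h
      · exact hBdmem IB (fun β hβ => hβ.1) z' hz'W hkz' h
      · exact absurd ⟨⟨h.1.1, le_of_lt hgz''⟩, h.2⟩ (hkC z' hkz').2.2.1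
    · obtain ⟨WL, hWL, hcL⟩ := hLc z (hTD z hgz)
      have hWL' : WL ∈ 𝓕 := hFL hWL
      refine ⟨_, inter_mem (inter_mem hWk hWr') hWL', Cov.mono ?_ (Cov.union hX hY hBd hcL)⟩
      rintro z' ⟨hz'L, ⟨hkz', hz'W⟩, hz'WL⟩
      rcases hL' z' hz'L with h | h | h
      · exact Or.inl (hBdmem IA (fun β hβ => hβ.1) z' hz'W hkz' h)
      · exact Or.inl (hBdmem IB (fun β hβ => hβ.1) z' hz'W hkz' h)
      · exact Or.inr ⟨h.1, hz'WL⟩
  · intro z hz
    have h1 : k z = 1 := hk1 (Or.inl hz)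
    refine mem_interior.2 ⟨{z | 3 / 4 < k z}, fun w (hw : 3 / 4 < k w) => hw.le,
      isOpen_lt continuous_const k.continuous, ?_⟩
    show 3 / 4 < k z
    rw [h1]
    norm_num
  · intro z hz
    have h1 : k z = 1 := hk1 (Or.inr hz)
    refine mem_interior.2 ⟨{z | 3 / 4 < k z}, fun w (hw : 3 / 4 < k w) => hw.le,
      isOpen_lt continuous_const k.continuous, ?_⟩
    show 3 / 4 < k z
    rw [h1]
    norm_num

end Pool.Agent.H87.IndP
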