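import Pool.Agent.H87.IndP.Extend

/-!
# The product theorem for `Ind` with a paracompact σ-locally compact factor
-/

set_option autoImplicit false

namespace Pool.Agent.H87.IndP

open Set Topology TopologicalSpace Filter

universe u

variable {X Y : Type u} [TopologicalSpace X] [TopologicalSpace Y]

/-- A partial solution of the separation problem for `A` and `B` in `S`. -/
structure State (S A B : Set (X × Y)) (m : ℕ) where
  P : Set (X × Y)
  Q : Set (X × Y)
  D : Set (X × Y)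
  T : Set (X × Y)
  hP : IsOpen P
  hQ : IsOpen Q
  hPQ : S ∩ P ∩ Q = ∅
  hD : IsClosed D
  hDT : D ⊆ interior T
  hAT : A ∩ T ⊆ P
  hBT : B ∩ T ⊆ Q
  hL : Nice m (S \ (P ∪ Q)) T

theorem metrizable_pi_nat (M : ℕ → Type u) [∀ n, TopologicalSpace (M n)]
    [∀ n, MetrizableSpace (M n)] : MetrizableSpace (∀ n, M n) := by
  let _ := fun n => metrizableSpaceMetric (M n)
  let _ := PiCountable.metricSpace (F := M)
  infer_instance

theorem nice_empty (m : ℕ) (L : Set (X × Y)) : Nice m L ∅ :=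
  ⟨PUnit, inferInstance, inferInstance, fun _ => PUnit.unit, continuous_const,
    fun _ hz => hz.elim⟩

/-- The separation of `A` and `B` in `S`. -/
theorem exists_partition [T2Space X] [ParacompactSpace X] [NormalSpace (X × Y)]
    (hX : FiniteSumTheorem X) (hY : FiniteSumTheorem Y) {m : ℕ} {S A B : Set (X × Y)}
    (hS : IsClosed S) (hA : IsClosed A) (hB : IsClosed B) (hAS : A ⊆ S) (hBS : B ⊆ S)
    (hAB : Disjoint A B) (hSn : Nice (m + 1) S univ) (F : ℕ → Set X) (hF : ∀ n, IsClosed (F n))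
    (hFl : ∀ n, WeaklyLocallyCompactSpace (F n)) (hFu : ⋃ n, F n = univ) :
    ∃ P Q : Set (X × Y), IsOpen P ∧ IsOpen Q ∧ S ∩ P ∩ Q = ∅ ∧ A ⊆ P ∧ B ⊆ Q ∧
      Nice m (S \ (P ∪ Q)) univ := by
  classical
  have hstep : ∀ (n : ℕ) (s : State S A B m), ∃ s' : State S A B m, s.D ⊆ interior s'.D ∧
      F n ×ˢ univ ⊆ interior s'.D ∧ s'.P ∩ s.D = s.P ∩ s.D ∧ s'.Q ∩ s.D = s.Q ∩ s.D := by
    intro n s
    have := hFl n
    obtain ⟨P', Q', D', T', h1, h2, h3, h4, h5, h6, h7, h8, h9, h10, h11, h12⟩ :=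
      extend hX hY hS hA hB hAS hBS hAB hSn (hF n) s.hP s.hQ s.hPQ s.hD s.hDT s.hAT s.hBT s.hL
    exact ⟨⟨P', Q', D', T', h1, h2, h3, h4, h5, h6, h7, h8⟩, h9, h10, h11, h12⟩
  choose next hn1 hn2 hn3 hn4 using hstep
  let init : State S A B m := ⟨∅, ∅, ∅, ∅, isOpen_empty, isOpen_empty, by simp, isClosed_empty,
    by simp, by simp, by simp, nice_empty m _⟩
  let s : ℕ → State S A B m := fun n => Nat.rec init (fun k t => next k t) n
  have hs : ∀ n, s (n + 1) = next n (s n) := fun n => rfl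
  have hDi : ∀ n, (s n).D ⊆ interior (s (n + 1)).D := fun n => hn1 n (s n)
  have hDm : Monotone fun n => (s n).D := monotone_nat_of_le_succ fun n =>
    (hDi n).trans interior_subset
  have hPm : ∀ n k, (s (n + k)).P ∩ (s n).D = (s n).P ∩ (s n).D := by
    intro n k
    induction k with
    | zero => rfl
    | succ k ih =>
      have h1 : (s (n + k + 1)).P ∩ (s (n + k)).D = (s (n + k)).P ∩ (s (n + k)).D :=
        hn3 (n + k) (s (n + k))
      have h2 : (s n).D ⊆ (s (n + k)).D := hDm (Nat.le_add_right n k)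
      rw [← ih]
      ext z
      constructor
      · rintro ⟨hz, hz'⟩
        have h3 : z ∈ (s (n + k + 1)).P ∩ (s (n + k)).D := ⟨hz, h2 hz'⟩
        rw [h1] at h3
        exact ⟨h3.1, hz'⟩
      · rintro ⟨hz, hz'⟩
        have h3 : z ∈ (s (n + k)).P ∩ (s (n + k)).D := ⟨hz, h2 hz'⟩
        rw [← h1] at h3
        exact ⟨h3.1, hz'⟩
  have hQm : ∀ n k, (s (n + k)).Q ∩ (s n).D = (s n).Q ∩ (s n).D := by
    intro n k
    induction k with
    | zero => rfl
    | succ k ih =>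
      have h1 : (s (n + k + 1)).Q ∩ (s (n + k)).D = (s (n + k)).Q ∩ (s (n + k)).D :=
        hn4 (n + k) (s (n + k))
      have h2 : (s n).D ⊆ (s (n + k)).D := hDm (Nat.le_add_right n k)
      rw [← ih]
      ext z
      constructor
      · rintro ⟨hz, hz'⟩
        have h3 : z ∈ (s (n + k + 1)).Q ∩ (s (n + k)).D := ⟨hz, h2 hz'⟩
        rw [h1] at h3
        exact ⟨h3.1, hz'⟩
      · rintro ⟨hz, hz'⟩
        have h3 : z ∈ (s (n + k)).Q ∩ (s (n + k)).D := ⟨hz, h2 hz'⟩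
        rw [← h1] at h3
        exact ⟨h3.1, hz'⟩
  have hcov : ∀ z : X × Y, ∃ n, z ∈ (s n).D := by
    intro z
    have h1 : z.1 ∈ ⋃ n, F n := by
      rw [hFu]
      trivial
    obtain ⟨n, hn⟩ := mem_iUnion.1 h1
    exact ⟨n + 1, interior_subset (hn2 n (s n) ⟨hn, trivial⟩)⟩
  let P : Set (X × Y) := ⋃ n, (s n).P ∩ interior (s n).D
  let Q : Set (X × Y) := ⋃ n, (s n).Q ∩ interior (s n).D
  refine ⟨P, Q, isOpen_iUnion fun n => (s n).hP.inter isOpen_interior,
    isOpen_iUnion fun n => (s n).hQ.inter isOpen_interior, ?_, ?_, ?_, ?_⟩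
  · rw [eq_empty_iff_forall_notMem]
    rintro z ⟨⟨hzS, h1⟩, h2⟩
    obtain ⟨n, h1, h1'⟩ := mem_iUnion.1 h1
    obtain ⟨k, h2, h2'⟩ := mem_iUnion.1 h2
    have h3 : z ∈ (s (n + k)).P := by
      have : z ∈ (s n).P ∩ (s n).D := ⟨h1, interior_subset h1'⟩
      rw [← hPm n k] at this
      exact this.1
    have h4 : z ∈ (s (k + n)).Q := by
      have : z ∈ (s k).Q ∩ (s k).D := ⟨h2, interior_subset h2'⟩
      rw [← hQm k n] at this
      exact this.1
    rw [Nat.add_comm k n] at h4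
    have h5 : z ∈ S ∩ (s (n + k)).P ∩ (s (n + k)).Q := ⟨⟨hzS, h3⟩, h4⟩
    rw [(s (n + k)).hPQ] at h5
    exact h5
  · intro z hz
    obtain ⟨n, hn⟩ := hcov z
    have h1 := hDi n hn
    exact mem_iUnion.2 ⟨n + 1, (s (n + 1)).hAT ⟨hz, interior_subset ((s (n + 1)).hDT
      (interior_subset h1))⟩, h1⟩
  · intro z hz
    obtain ⟨n, hn⟩ := hcov z
    have h1 := hDi n hn
    exact mem_iUnion.2 ⟨n + 1, (s (n + 1)).hBT ⟨hz, interior_subset ((s (n + 1)).hDT
      (interior_subset h1))⟩, h1⟩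
  · -- niceness
    have hh : ∀ n, ∃ h : C(X × Y, ℝ), EqOn h 0 (interior (s (n + 1)).D)ᶜ ∧
        EqOn h 1 (s n).D ∧ ∀ z, h z ∈ Icc (0 : ℝ) 1 := fun n =>
      exists_continuous_zero_one_of_isClosed isOpen_interior.isClosed_compl (s n).hD
        (disjoint_left.2 fun z h1 h2 => h1 (hDi n h2))
    choose h hh0 hh1 _ using hh
    choose M tM hM Φ hΦ hc using fun n => (s (n + 1)).hL
    refine ⟨∀ n, M n × ℝ, inferInstance, metrizable_pi_nat _, fun z n => (Φ n z, h n z),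
      continuous_pi fun n => (hΦ n).prodMk (h n).continuous, fun z _ => ?_⟩
    obtain ⟨n, hn⟩ := hcov z
    have hzT : z ∈ (s (n + 1)).T := interior_subset ((s (n + 1)).hDT (interior_subset (hDi n hn)))
    obtain ⟨W, hW, hcW⟩ := hc n z hzT
    set 𝓕 := comap (fun z n => (Φ n z, h n z)) (𝓝 (fun n => (Φ n z, h n z))) with h𝓕
    have hF1 : 𝓕 ≤ comap (Φ n) (𝓝 (Φ n z)) :=
      comap_le_comap (fun z n => (Φ n z, h n z)) (fun w => (w n).1) (by fun_prop) z
    have hF2 : 𝓕 ≤ comap (h n) (𝓝 (h n z)) :=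
      comap_le_comap (fun z n => (Φ n z, h n z)) (fun w => (w n).2) (by fun_prop) z
    have h1 : h n z = 1 := hh1 n hn
    have hW2 : {z' | 0 < h n z'} ∈ 𝓕 := hF2 (preimage_mem_comap (Ioi_mem_nhds (by
      rw [h1]; exact one_pos)))
    refine ⟨_, inter_mem (hF1 hW) hW2, Cov.mono ?_ hcW⟩
    rintro z' ⟨⟨hzS, hz'⟩, hz'W, hz'h⟩
    have hz'D : z' ∈ interior (s (n + 1)).D := by
      by_contra hcon
      have h2 : h n z' = 0 := hh0 n hcon
      have h3 : 0 < h n z' := hz'h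
      rw [h2] at h3
      exact lt_irrefl _ h3
    refine ⟨⟨hzS, fun h4 => hz' ?_⟩, hz'W⟩
    rcases h4 with h4 | h4
    · exact Or.inl (mem_iUnion.2 ⟨n + 1, h4, hz'D⟩)
    · exact Or.inr (mem_iUnion.2 ⟨n + 1, h4, hz'D⟩)

theorem indLT_of_nice [T2Space X] [ParacompactSpace X] [NormalSpace (X × Y)]
    (hX : FiniteSumTheorem X) (hY : FiniteSumTheorem Y) (F : ℕ → Set X)
    (hF : ∀ n, IsClosed (F n)) (hFl : ∀ n, WeaklyLocallyCompactSpace (F n))
    (hFu : ⋃ n, F n = univ) (n : ℕ) :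
    ∀ S : Set (X × Y), IsClosed S → Nice n S univ → IndLT n S := by
  induction n with
  | zero =>
    rintro S _ ⟨M, _, _, Φ, _, hc⟩
    refine ⟨fun z => ?_⟩
    obtain ⟨W, hW, F', H, -, -, -, hc⟩ := hc z trivial
    obtain ⟨N, hN, hNW⟩ := hW
    obtain ⟨a, ha, -⟩ := hc z ⟨z.2, hNW (show Φ z ∈ N from mem_of_mem_nhds hN)⟩
    exact absurd ha (Nat.not_lt_zero a)
  | succ m ih =>
    intro S hS hSn A₀ U₀ hA₀ hU₀ hAU₀
    have hemb := hS.isClosedEmbedding_subtypeVal
    have hA : IsClosed (Subtype.val '' A₀ : Set (X × Y)) := hemb.isClosedMap A₀ hA₀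
    have hB : IsClosed (Subtype.val '' U₀ᶜ : Set (X × Y)) :=
      hemb.isClosedMap _ hU₀.isClosed_compl
    have hAB : Disjoint (Subtype.val '' A₀ : Set (X × Y)) (Subtype.val '' U₀ᶜ) :=
      (disjoint_image_iff Subtype.val_injective).2
        (disjoint_left.2 fun x hx hx' => hx' (hAU₀ hx))
    obtain ⟨P, Q, hP, hQ, hPQ, hAP, hBQ, hnice⟩ := exists_partition hX hY hS hA hB
      (by rintro _ ⟨x, -, rfl⟩; exact x.2) (by rintro _ ⟨x, -, rfl⟩; exact x.2) hAB hSn F hF hFl hFu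
    have hLc : IsClosed (S \ (P ∪ Q)) := hS.sdiff (hP.union hQ)
    have hLind := ih _ hLc hnice
    have hVo : IsOpen (Subtype.val ⁻¹' P : Set S) := hP.preimage continuous_subtype_val
    have hVo' : IsOpen (Subtype.val ⁻¹' Q : Set S) := hQ.preimage continuous_subtype_val
    have hcl : closure (Subtype.val ⁻¹' P : Set S) ⊆ (Subtype.val ⁻¹' Q)ᶜ := by
      refine closure_minimal (fun x h1 h2 => ?_) hVo'.isClosed_compl
      have h3 : x.1 ∈ S ∩ P ∩ Q := ⟨⟨x.2, h1⟩, h2⟩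
      rw [hPQ] at h3
      exact h3
    refine ⟨Subtype.val ⁻¹' P, hVo, ?_, ?_, ?_⟩
    · intro x hx
      exact hAP ⟨x, hx, rfl⟩
    · intro x hx
      by_contra hxU
      exact hcl hx (hBQ ⟨x, hxU, rfl⟩)
    · refine IndLT.of_image_subset hS isClosed_frontier ?_ hLind
      rintro _ ⟨x, hx, rfl⟩
      rw [hVo.frontier_eq] at hx
      refine ⟨x.2, fun h => ?_⟩
      rcases h with h | h
      · exact hx.2 h
      · exact hcl hx.1 h

theorem ind_prod_univ [T2Space X] [ParacompactSpace X] [NormalSpace (X × Y)]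
    (hX : FiniteSumTheorem X) (hY : FiniteSumTheorem Y) (F : ℕ → Set X)
    (hF : ∀ n, IsClosed (F n)) (hFl : ∀ n, WeaklyLocallyCompactSpace (F n))
    (hFu : ⋃ n, F n = univ) {a b : ℕ}
    (ha : IndLT (a + 1) X) (hb : IndLT (b + 1) Y) : IndLT (a + b + 1) (X × Y) := by
  have h1 : IndLT (a + 1) (univ : Set X) :=
    IndLT.of_isClosedEmbedding _ (Homeomorph.Set.univ X).isClosedEmbedding ha
  have h2 : IndLT (b + 1) (univ : Set Y) :=
    IndLT.of_isClosedEmbedding _ (Homeomorph.Set.univ Y).isClosedEmbedding hb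
  have h3 : IndLT (a + b + 1) (univ : Set (X × Y)) := by
    refine indLT_of_nice hX hY F hF hFl hFu _ univ isClosed_univ ?_
    refine ⟨PUnit, inferInstance, inferInstance, fun _ => PUnit.unit, continuous_const,
      fun z _ => ⟨univ, univ_mem, Cov.mono (subset_univ _) ?_⟩⟩
    rw [← univ_prod_univ]
    exact Cov.rect le_rfl isClosed_univ isClosed_univ h1 h2
  exact IndLT.of_isClosedEmbedding _ (Homeomorph.Set.univ (X × Y)).symm.isClosedEmbedding h3

end Pool.Agent.H87.IndP
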