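import Pool.Agent.H87.IndP.Rect

/-!
# Sets which are small locally in a metrizable way
-/

set_option autoImplicit false

namespace Pool.Agent.H87.IndP

open Set Topology TopologicalSpace Filter

universe u

variable {X Y : Type u} [TopologicalSpace X] [TopologicalSpace Y]

/-- `Nice m L T`: for some continuous map `Φ` of `X × Y` into a metrizable space, each point `z` of
`T` has a neighbourhood of the form `Φ ⁻¹' N` in which `L` is covered by finitely many rectangles
of total dimension less than `m`. -/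
def Nice (m : ℕ) (L T : Set (X × Y)) : Prop :=
  ∃ (M : Type u) (_ : TopologicalSpace M) (_ : MetrizableSpace M) (Φ : X × Y → M),
    Continuous Φ ∧ ∀ z ∈ T, ∃ W ∈ comap Φ (𝓝 (Φ z)), Cov m (L ∩ W)

theorem comap_le_comap {Z M N : Type*} [TopologicalSpace M] [TopologicalSpace N] (Φ : Z → M)
    (h : M → N) (hh : Continuous h) (z : Z) :
    comap Φ (𝓝 (Φ z)) ≤ comap (fun x => h (Φ x)) (𝓝 (h (Φ z))) := by
  have : comap (fun x => h (Φ x)) (𝓝 (h (Φ z))) = comap Φ (comap h (𝓝 (h (Φ z)))) := by
    rw [comap_comap]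
    rfl
  rw [this]
  exact comap_mono (hh.tendsto (Φ z)).le_comap

/-- A locally finite family of functions gives a continuous map into a metrizable space. -/
theorem exists_sup_map {Z ι : Type u} [TopologicalSpace Z] (r : ι → Z → ℝ)
    (hr : ∀ β, Continuous (r β)) (h01 : ∀ β z, |r β z| ≤ 1)
    (hlf : LocallyFinite fun β => {z | r β z ≠ 0}) :
    ∃ (M : Type u) (_ : TopologicalSpace M) (_ : MetrizableSpace M) (Ψ : Z → M), Continuous Ψ ∧
      ∀ z, ∃ W ∈ comap Ψ (𝓝 (Ψ z)), {β | ∃ z' ∈ W, r β z' = 1}.Finite := by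
  classical
  let _ : TopologicalSpace ι := ⊥
  have : DiscreteTopology ι := ⟨rfl⟩
  let Ψ : Z → BoundedContinuousFunction ι ℝ := fun z =>
    BoundedContinuousFunction.ofNormedAddCommGroupDiscrete (fun β => r β z) 1 fun β => h01 β z
  have hΨ : ∀ z β, Ψ z β = r β z := fun z β => rfl
  refine ⟨BoundedContinuousFunction ι ℝ, inferInstance, inferInstance, Ψ, ?_, fun z => ?_⟩
  · rw [continuous_iff_continuousAt]
    intro z₀
    obtain ⟨W, hW, hWf⟩ := hlf z₀
    rw [ContinuousAt, Metric.tendsto_nhds]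
    intro ε hε
    have h1 : ∀ᶠ z in 𝓝 z₀, ∀ β ∈ hWf.toFinset, dist (r β z) (r β z₀) < ε / 2 := by
      rw [Filter.eventually_all_finset]
      intro β _
      exact Metric.tendsto_nhds.1 (hr β).continuousAt (ε / 2) (half_pos hε)
    filter_upwards [h1, hW] with z hz hzW
    refine lt_of_le_of_lt ((BoundedContinuousFunction.dist_le (half_pos hε).le).2 fun β => ?_)
      (half_lt_self hε)
    rw [hΨ, hΨ]
    by_cases hβ : β ∈ hWf.toFinset
    · exact (hz β hβ).le
    · have h2 : ∀ z' ∈ W, r β z' = 0 := by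
        intro z' hz'
        by_contra hne
        exact hβ (hWf.mem_toFinset.2 ⟨z', hne, hz'⟩)
      rw [h2 z hzW, h2 z₀ (mem_of_mem_nhds hW), dist_self]
      exact (half_pos hε).le
  · refine ⟨Ψ ⁻¹' Metric.ball (Ψ z) (1 / 2), preimage_mem_comap (Metric.ball_mem_nhds _ (by norm_num)),
      (hlf.point_finite z).subset ?_⟩
    rintro β ⟨z', hz', h1⟩
    have h2 : dist (Ψ z' β) (Ψ z β) < 1 / 2 :=
      (BoundedContinuousFunction.dist_coe_le_dist β).trans_lt hz'
    rw [hΨ, hΨ, h1, Real.dist_eq] at h2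
    intro h3
    rw [show r β z = 0 from h3] at h2
    norm_num at h2

end Pool.Agent.H87.IndP
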