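import Pool.Agent.H87.IndP.Basic

/-!
# Locally finite families of small rectangles along a closed locally compact set of a paracompact
factor
-/

set_option autoImplicit false

namespace Pool.Agent.H87.IndP

open Set Topology

universe u

theorem exists_pos_le {α : Type*} (F : Finset α) (f : α → ℝ) (hf : ∀ x ∈ F, 0 < f x) :
    ∃ δ > 0, ∀ x ∈ F, δ ≤ f x := by
  classical
  induction F using Finset.induction_on with
  | empty => exact ⟨1, one_pos, by simp⟩
  | insert a s ha ih =>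
    obtain ⟨δ, hδ, h⟩ := ih fun x hx => hf x (Finset.mem_insert_of_mem hx)
    refine ⟨min δ (f a), lt_min hδ (hf a (Finset.mem_insert_self a s)), fun x hx => ?_⟩
    rcases Finset.mem_insert.1 hx with rfl | hx
    · exact min_le_right _ _
    · exact (min_le_left _ _).trans (h x hx)

/-- A locally finite open cover with its shrinkings, subordinate to the preimages of balls. -/
theorem exists_numerable {Y N : Type u} [TopologicalSpace Y] [MetricSpace N] (π : Y → N)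
    (hπ : Continuous π) (δ : Y → ℝ) (hδ : ∀ y, 0 < δ y) :
    ∃ V0 V1 V2 : Y → Set Y, (∀ y, IsOpen (V0 y)) ∧ (∀ y, IsOpen (V1 y)) ∧ (∀ y, IsOpen (V2 y)) ∧
      (∀ y, closure (V0 y) ⊆ V1 y) ∧ (∀ y, closure (V1 y) ⊆ V2 y) ∧
      (∀ y, ∀ y' ∈ closure (V2 y), dist (π y') (π y) < δ y) ∧ LocallyFinite V2 ∧
      ∀ y', ∃ y, y' ∈ V0 y := by
  let p : Y → range π := fun y => ⟨π y, mem_range_self y⟩
  have hp : Continuous p := hπ.subtype_mk _
  let u : Y → Set (range π) := fun y => {w | dist w.1 (π y) < δ y}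
  have huo : ∀ y, IsOpen (u y) := fun y =>
    isOpen_lt (continuous_subtype_val.dist continuous_const) continuous_const
  have huc : ⋃ y, u y = univ := by
    rw [eq_univ_iff_forall]
    rintro ⟨_, y, rfl⟩
    refine mem_iUnion.2 ⟨y, ?_⟩
    show dist (π y) (π y) < δ y
    rw [dist_self]
    exact hδ y
  obtain ⟨v3, h3o, h3c, h3f, h3u⟩ := precise_refinement u huo huc
  obtain ⟨v2, h2c, h2o, h23⟩ := exists_iUnion_eq_closure_subset h3o
    (fun x => h3f.point_finite x) h3c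
  have h2f : LocallyFinite v2 := h3f.subset fun y => subset_closure.trans (h23 y)
  obtain ⟨v1, h1c, h1o, h12⟩ := exists_iUnion_eq_closure_subset h2o
    (fun x => h2f.point_finite x) h2c
  have h1f : LocallyFinite v1 := h2f.subset fun y => subset_closure.trans (h12 y)
  obtain ⟨v0, h0c, h0o, h01⟩ := exists_iUnion_eq_closure_subset h1o
    (fun x => h1f.point_finite x) h1c
  refine ⟨fun y => p ⁻¹' v0 y, fun y => p ⁻¹' v1 y, fun y => p ⁻¹' v2 y,
    fun y => (h0o y).preimage hp, fun y => (h1o y).preimage hp, fun y => (h2o y).preimage hp,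
    fun y => (hp.closure_preimage_subset _).trans (preimage_mono (h01 y)),
    fun y => (hp.closure_preimage_subset _).trans (preimage_mono (h12 y)),
    fun y y' hy' => ?_, h2f.preimage_continuous hp, fun y' => ?_⟩
  · exact h3u y (h23 y (hp.closure_preimage_subset _ hy'))
  · have : p y' ∈ ⋃ y, v0 y := by
      rw [h0c]
      trivial
    obtain ⟨y, hy⟩ := mem_iUnion.1 this
    exact ⟨y, hy⟩

variable {X Y : Type u} [TopologicalSpace X] [TopologicalSpace Y]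

theorem exists_open_compact [T2Space X] [ParacompactSpace X] {X₀ : Set X} (hX₀ : IsClosed X₀)
    [WeaklyLocallyCompactSpace X₀] (x : X) :
    ∃ O : Set X, IsOpen O ∧ x ∈ O ∧ IsCompact (closure O ∩ X₀) := by
  by_cases hx : x ∈ X₀
  · obtain ⟨K, hK, hKn⟩ := exists_compact_mem_nhds (⟨x, hx⟩ : X₀)
    obtain ⟨w, hw, hwK⟩ := mem_nhds_subtype _ _ _ |>.1 hKn
    obtain ⟨t, ht, htc, htw⟩ := exists_mem_nhds_isClosed_subset hw
    refine ⟨interior t, isOpen_interior, mem_interior_iff_mem_nhds.2 ht, ?_⟩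
    refine (hK.image continuous_subtype_val).of_isClosed_subset (isClosed_closure.inter hX₀) ?_
    rintro a ⟨ha, haX⟩
    exact ⟨⟨a, haX⟩, hwK (htw (closure_minimal interior_subset htc ha)), rfl⟩
  · obtain ⟨t, ht, htc, htw⟩ := exists_mem_nhds_isClosed_subset (hX₀.isOpen_compl.mem_nhds hx)
    refine ⟨interior t, isOpen_interior, mem_interior_iff_mem_nhds.2 ht, ?_⟩
    have : closure (interior t) ∩ X₀ = ∅ := by
      rw [eq_empty_iff_forall_notMem]
      rintro a ⟨ha, haX⟩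
      exact htw (closure_minimal interior_subset htc ha) haX
    rw [this]
    exact isCompact_empty

theorem exists_open_closure [T2Space X] [ParacompactSpace X] {x : X} {O : Set X} (hO : IsOpen O)
    (hx : x ∈ O) : ∃ W : Set X, IsOpen W ∧ x ∈ W ∧ closure W ⊆ O := by
  obtain ⟨t, ht, htc, htw⟩ := exists_mem_nhds_isClosed_subset (hO.mem_nhds hx)
  exact ⟨interior t, isOpen_interior, mem_interior_iff_mem_nhds.2 ht,
    (closure_minimal interior_subset htc).trans htw⟩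

/-- **Small rectangles.** -/
theorem exists_rects [T2Space X] [ParacompactSpace X] {X₀ : Set X} (hX₀ : IsClosed X₀)
    [WeaklyLocallyCompactSpace X₀] {M : Type u} [MetricSpace M] {Φ : X × Y → M}
    (hΦ : Continuous Φ) (G : M → ℝ → Prop) (hG : ∀ z : X × Y, ∃ ε > 0, G (Φ z) ε) :
    ∃ (ι : Type u) (C U U' : ι → Set X) (D V V' : ι → Set Y) (c : ι → M) (ε : ι → ℝ),
      (∀ β, IsClosed (C β) ∧ IsOpen (U β) ∧ IsOpen (U' β) ∧ C β ⊆ U β ∧
        closure (U β) ⊆ U' β) ∧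
      (∀ β, IsClosed (D β) ∧ IsOpen (V β) ∧ IsOpen (V' β) ∧ D β ⊆ V β ∧
        closure (V β) ⊆ V' β) ∧
      LocallyFinite (fun β => U' β ×ˢ V' β) ∧
      (∀ z : X × Y, z.1 ∈ X₀ → ∃ β, z ∈ C β ×ˢ D β) ∧
      (∀ β, 0 < ε β ∧ G (c β) (ε β)) ∧
      ∀ β, ∀ z : X × Y, z.1 ∈ X₀ → z.1 ∈ closure (U' β) → z.2 ∈ closure (V' β) →
        dist (Φ z) (c β) < ε β / 2 := by
  classical
  choose e he hGe using hG
  -- the covers of `X`
  choose O hO hxO hOc using fun x : X => exists_open_compact hX₀ x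
  obtain ⟨v2, h2o, h2c, h2f, h2O⟩ := precise_refinement O hO
    (eq_univ_iff_forall.2 fun x => mem_iUnion.2 ⟨x, hxO x⟩)
  obtain ⟨v1, h1c, h1o, h12⟩ := exists_iUnion_eq_closure_subset h2o
    (fun x => h2f.point_finite x) h2c
  have h1f : LocallyFinite v1 := h2f.subset fun y => subset_closure.trans (h12 y)
  obtain ⟨v0, h0c, h0o, h01⟩ := exists_iUnion_eq_closure_subset h1o
    (fun x => h1f.point_finite x) h1c
  let K : X → Set X := fun α => closure (O α) ∩ X₀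
  have hvK : ∀ α x, x ∈ X₀ → x ∈ closure (v2 α) → x ∈ K α := fun α x hx hxv =>
    ⟨closure_mono (h2O α) hxv, hx⟩
  -- the small neighbourhoods in `X`
  have hW : ∀ z : X × Y, ∃ W0 W1 W2 : Set X, IsOpen W0 ∧ IsOpen W1 ∧ IsOpen W2 ∧ z.1 ∈ W0 ∧
      closure W0 ⊆ W1 ∧ closure W1 ⊆ W2 ∧
      closure W2 ⊆ {x | dist (Φ (x, z.2)) (Φ z) < e z / 4} := by
    intro z
    have ho : IsOpen {x | dist (Φ (x, z.2)) (Φ z) < e z / 4} :=
      isOpen_lt ((hΦ.comp (by fun_prop)).dist continuous_const) continuous_const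
    have hz : z.1 ∈ {x | dist (Φ (x, z.2)) (Φ z) < e z / 4} := by
      show dist (Φ z) (Φ z) < e z / 4
      rw [dist_self]
      have := he z
      positivity
    obtain ⟨W2, hW2, hz2, hW2'⟩ := exists_open_closure ho hz
    obtain ⟨W1, hW1, hz1, hW1'⟩ := exists_open_closure hW2 hz2
    obtain ⟨W0, hW0, hz0, hW0'⟩ := exists_open_closure hW1 hz1
    exact ⟨W0, W1, W2, hW0, hW1, hW2, hz0, hW0', hW1', hW2'⟩
  choose W0 W1 W2 hW0 hW1 hW2 hzW0 hW01 hW12 hW23 using hW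
  have hF : ∀ (α : X) (y : Y), ∃ F : Finset X, K α ⊆ ⋃ x ∈ F, W0 (x, y) := by
    intro α y
    obtain ⟨t, -, ht⟩ := (hOc α).elim_nhds_subcover (fun x => W0 (x, y))
      (fun x _ => (hW0 (x, y)).mem_nhds (hzW0 (x, y)))
    exact ⟨t, ht⟩
  choose F hF using hF
  have hδ : ∀ (α : X) (y : Y), ∃ δ > 0, ∀ x ∈ F α y, δ ≤ e (x, y) / 4 := fun α y =>
    exists_pos_le _ _ fun x _ => by
      have := he (x, y)
      positivity
  choose δ hδ0 hδ using hδ
  -- the covers of `Y`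
  have hY : ∀ α : X, ∃ V0 V1 V2 : Y → Set Y, (∀ y, IsOpen (V0 y)) ∧ (∀ y, IsOpen (V1 y)) ∧
      (∀ y, IsOpen (V2 y)) ∧ (∀ y, closure (V0 y) ⊆ V1 y) ∧ (∀ y, closure (V1 y) ⊆ V2 y) ∧
      (∀ y, ∀ y' ∈ closure (V2 y), ∀ x ∈ K α, dist (Φ (x, y')) (Φ (x, y)) < δ α y) ∧
      LocallyFinite V2 ∧ ∀ y', ∃ y, y' ∈ V0 y := by
    intro α
    have : CompactSpace (K α) := isCompact_iff_compactSpace.1 (hOc α)
    let f : C(Y × K α, M) := ⟨fun p => Φ (p.2.1, p.1), hΦ.comp (by fun_prop)⟩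
    obtain ⟨V0, V1, V2, h1, h2, h3, h4, h5, h6, h7, h8⟩ := exists_numerable (fun y => f.curry y)
      f.curry.continuous (δ α) (hδ0 α)
    refine ⟨V0, V1, V2, h1, h2, h3, h4, h5, fun y y' hy' x hx => ?_, h7, h8⟩
    exact (ContinuousMap.dist_apply_le_dist (f := f.curry y') (g := f.curry y)
      (⟨x, hx⟩ : K α)).trans_lt (h6 y y' hy')
  choose V0 V1 V2 hV0 hV1 hV2 hV01 hV12 hV2d hV2f hVc using hY
  -- the pieces in `X`
  let u : (X → Set X) → (X × Y → Set X) → X × Y × X → Set X := fun v W β =>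
    {x | β.2.2 ∈ F β.1 β.2.1 ∧ x ∈ v β.1 ∧ x ∈ W (β.2.2, β.2.1)}
  have huo : ∀ (v : X → Set X) (W : X × Y → Set X), (∀ α, IsOpen (v α)) → (∀ z, IsOpen (W z)) →
      ∀ β, IsOpen (u v W β) := by
    intro v W hv hW β
    by_cases h : β.2.2 ∈ F β.1 β.2.1
    · have : u v W β = v β.1 ∩ W (β.2.2, β.2.1) := by
        ext x
        simp [u, h]
      rw [this]
      exact (hv _).inter (hW _)
    · have : u v W β = ∅ := by
        ext x
        simp [u, h]
      rw [this]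
      exact isOpen_empty
  have hcl : ∀ (v : X → Set X) (W : X × Y → Set X) β x, x ∈ closure (u v W β) →
      β.2.2 ∈ F β.1 β.2.1 ∧ x ∈ closure (v β.1) ∧ x ∈ closure (W (β.2.2, β.2.1)) := by
    intro v W β x hx
    refine ⟨?_, closure_mono (fun a ha => ha.2.1) hx, closure_mono (fun a ha => ha.2.2) hx⟩
    obtain ⟨a, ha⟩ := closure_nonempty_iff.1 ⟨x, hx⟩
    exact ha.1
  refine ⟨X × Y × X, fun β => closure (u v0 W0 β), u v1 W1, u v2 W2,
    fun β => closure (V0 β.1 β.2.1), fun β => V1 β.1 β.2.1, fun β => V2 β.1 β.2.1,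
    fun β => Φ (β.2.2, β.2.1), fun β => e (β.2.2, β.2.1), fun β => ?_, fun β => ?_, ?_, ?_,
    fun β => ⟨he _, hGe _⟩, ?_⟩
  · refine ⟨isClosed_closure, huo _ _ h1o hW1 β, huo _ _ h2o hW2 β, fun x hx => ?_, fun x hx => ?_⟩
    · obtain ⟨h1, h2, h3⟩ := hcl _ _ _ _ hx
      exact ⟨h1, h01 _ h2, hW01 _ h3⟩
    · obtain ⟨h1, h2, h3⟩ := hcl _ _ _ _ hx
      exact ⟨h1, h12 _ h2, hW12 _ h3⟩
  · exact ⟨isClosed_closure, hV1 _ _, hV2 _ _, hV01 _ _, hV12 _ _⟩
  · rintro ⟨a, b⟩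
    obtain ⟨A, hA, hAf⟩ := h2f a
    choose B hB hBf using fun α => hV2f α b
    refine ⟨A ×ˢ ⋂ α ∈ hAf.toFinset, B α, prod_mem_nhds hA
      ((Filter.biInter_finset_mem _).2 fun α _ => hB α), ?_⟩
    refine ((hAf.biUnion fun α _ => (hBf α).biUnion fun y _ =>
      ((F α y).finite_toSet.image fun x => (α, y, x)))).subset ?_
    rintro ⟨α, y, x⟩ ⟨⟨a', b'⟩, ⟨ha', hb'⟩, ha'', hb''⟩
    have hα : (v2 α ∩ A).Nonempty := ⟨a', ha'.2.1, ha''⟩
    have hb3 : b' ∈ B α := mem_iInter₂.1 hb'' α (hAf.mem_toFinset.2 hα)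
    refine mem_iUnion₂.2 ⟨α, hα, mem_iUnion₂.2 ⟨y, ⟨b', hb', hb3⟩, x, ha'.1, rfl⟩⟩
  · rintro ⟨a, b⟩ ha
    obtain ⟨α, hα⟩ : ∃ α, a ∈ v0 α := by
      have : a ∈ ⋃ α, v0 α := by
        rw [h0c]
        trivial
      exact mem_iUnion.1 this
    obtain ⟨y, hy⟩ := hVc α b
    have haK : a ∈ K α := hvK α a ha
      (subset_closure (h12 α (subset_closure (h01 α (subset_closure hα)))))
    obtain ⟨x, hx, hax⟩ := mem_iUnion₂.1 (hF α y haK)
    exact ⟨(α, y, x), subset_closure ⟨hx, hα, hax⟩, subset_closure hy⟩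
  · rintro ⟨α, y, x⟩ ⟨a, b⟩ ha hac hbc
    obtain ⟨h1, h2, h3⟩ := hcl _ _ _ _ hac
    have haK : a ∈ K α := hvK α a ha h2
    have h4 : dist (Φ (a, b)) (Φ (a, y)) < δ α y := hV2d α y b hbc a haK
    have h5 : dist (Φ (a, y)) (Φ (x, y)) < e (x, y) / 4 := hW23 (x, y) h3
    have h6 : δ α y ≤ e (x, y) / 4 := hδ α y x h1
    have h7 := dist_triangle (Φ (a, b)) (Φ (a, y)) (Φ (x, y))
    show dist (Φ (a, b)) (Φ (x, y)) < e (x, y) / 2
    linarith

end Pool.Agent.H87.IndP
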